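import Mathlib

/-!
# The lower asymptotic constants for binomial coefficients prime to 5, 7 and 11

Writing `a = p (p + 1) / 2`, the counting function satisfies
`f (e p ^ k + m) = f e * a ^ k + row e * f m` for `m ≤ p ^ k`. A piecewise linear function `L` on
`[0, 1]` with `(T d + (d + 1) L y) / a ≥ L ((d + y) / p)` for all digits `d` (`T d = d (d + 1) / 2`)
is a lower bound of `f m / a ^ k` at `m / p ^ k`. For `p = 5, 7, 11` we give such functions that are
exact at the critical point and strong enough everywhere; the comparison with `λ x ^ θ` is reduced by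
convexity to the break points, where it is a finite check in rational arithmetic.
-/

set_option autoImplicit false

namespace Pool.Agent.Results.MP_165cab_nt.LowerConstants

open Finset Filter

/-- `f p n` is the number of pairs `(k, j)` of integers with `0 ≤ j ≤ k ≤ n - 1` such that `p` does
not divide the binomial coefficient `k` over `j`. -/
def f (p n : ℕ) : ℕ :=
  ((range n ×ˢ range n).filter (fun kj => kj.2 ≤ kj.1 ∧ ¬ p ∣ kj.1.choose kj.2)).card

/-- `θ_p = log (p (p + 1) / 2) / log p`. -/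
noncomputable def theta (p : ℕ) : ℝ := Real.log ((p : ℝ) * (p + 1) / 2) / Real.log p

/-- `λ_p = liminf f_p(n) n ^ (-θ_p)`. -/
noncomputable def lam (p : ℕ) : ℝ :=
  Filter.liminf (fun n : ℕ => (f p n : ℝ) * (n : ℝ) ^ (-theta p)) Filter.atTop

/-! ### The rows of Pascal's triangle -/

/-- The number of entries in row `n` that are prime to `p`. -/
def row (p n : ℕ) : ℕ := ((range (n + 1)).filter (fun j => ¬ p ∣ n.choose j)).card

theorem f_eq (p n : ℕ) : f p n = ∑ k ∈ range n, row p k := by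
  unfold f row
  rw [card_filter, sum_product]
  refine sum_congr rfl fun k hk => ?_
  rw [← card_filter]
  congr 1
  ext j
  simp only [mem_filter, mem_range] at hk ⊢
  constructor
  · rintro ⟨_, h1, h2⟩
    exact ⟨by omega, h2⟩
  · rintro ⟨h1, h2⟩
    exact ⟨by omega, by omega, h2⟩

theorem not_dvd_choose {p r s : ℕ} (hp : p.Prime) (hr : r < p) (hs : s ≤ r) : ¬ p ∣ r.choose s := by
  intro h
  have h1 : p ∣ r.factorial := by
    rw [← Nat.choose_mul_factorial_mul_factorial hs, mul_assoc]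
    exact Dvd.dvd.mul_right h _
  have h2 := (hp.dvd_factorial).1 h1
  omega

theorem dvd_choose_iff {p : ℕ} (hp : p.Prime) (n r j : ℕ) (hr : r < p) :
    p ∣ (p * n + r).choose j ↔ p ∣ r.choose (j % p) ∨ p ∣ n.choose (j / p) := by
  have : Fact p.Prime := ⟨hp⟩
  have h := Choose.choose_modEq_choose_mod_mul_choose_div_nat (n := p * n + r) (k := j) (p := p)
  have h1 : (p * n + r) % p = r := by
    rw [Nat.mul_add_mod, Nat.mod_eq_of_lt hr]
  have h2 : (p * n + r) / p = n := by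
    rw [Nat.mul_add_div hp.pos, Nat.div_eq_of_lt hr, add_zero]
  rw [h1, h2] at h
  rw [(Nat.ModEq.dvd_iff h dvd_rfl), hp.dvd_mul]

theorem row_step {p : ℕ} (hp : p.Prime) (n r : ℕ) (hr : r < p) :
    row p (p * n + r) = (r + 1) * row p n := by
  have hpos := hp.pos
  have key : (((range (n + 1)).filter (fun j => ¬ p ∣ n.choose j)) ×ˢ (range (r + 1))).card =
      ((range (p * n + r + 1)).filter (fun j => ¬ p ∣ (p * n + r).choose j)).card := by
    refine Finset.card_nbij' (fun x => p * x.1 + x.2) (fun j => (j / p, j % p)) ?_ ?_ ?_ ?_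
    · rintro ⟨x, s⟩ hx
      simp only [coe_product, coe_filter, coe_range, Set.mem_prod, Set.mem_ofPred_eq, Set.mem_Iio,
        mem_range] at hx ⊢
      obtain ⟨⟨hx1, hx2⟩, hs⟩ := hx
      have hsp : s < p := by omega
      have e1 : (p * x + s) % p = s := by rw [Nat.mul_add_mod, Nat.mod_eq_of_lt hsp]
      have e2 : (p * x + s) / p = x := by
        rw [Nat.mul_add_div hpos, Nat.div_eq_of_lt hsp, add_zero]
      refine ⟨?_, ?_⟩
      · have : p * x ≤ p * n := Nat.mul_le_mul_left _ (by omega)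
        omega
      · rw [dvd_choose_iff hp n r _ hr, e1, e2]
        rintro (h | h)
        · exact not_dvd_choose hp hr (by omega) h
        · exact hx2 h
    · intro j hj
      simp only [coe_product, coe_filter, coe_range, Set.mem_prod, Set.mem_ofPred_eq, Set.mem_Iio,
        mem_range] at hj ⊢
      obtain ⟨h1, h2⟩ := hj
      rw [dvd_choose_iff hp n r _ hr] at h2
      push Not at h2
      refine ⟨⟨?_, h2.2⟩, ?_⟩
      · have : j < (n + 1) * p := by
          have : (n + 1) * p = p * n + p := by ring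
          omega
        exact (Nat.div_lt_iff_lt_mul hpos).2 this
      · by_contra hlt
        exact h2.1 (by rw [Nat.choose_eq_zero_of_lt (by omega)]; exact dvd_zero _)
    · rintro ⟨x, s⟩ hx
      simp only [coe_product, coe_filter, coe_range, Set.mem_prod, Set.mem_ofPred_eq, Set.mem_Iio,
        mem_range] at hx
      have hsp : s < p := by omega
      have e1 : (p * x + s) % p = s := by rw [Nat.mul_add_mod, Nat.mod_eq_of_lt hsp]
      have e2 : (p * x + s) / p = x := by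
        rw [Nat.mul_add_div hpos, Nat.div_eq_of_lt hsp, add_zero]
      simp only [e1, e2]
    · intro j _
      simp only
      exact Nat.div_add_mod j p
  unfold row
  rw [← key, card_product, card_range, mul_comm]

theorem row_zero {p : ℕ} (hp : p.Prime) : row p 0 = 1 := by
  unfold row
  have : (range (0 + 1)).filter (fun j => ¬ p ∣ Nat.choose 0 j) = {0} := by
    ext j
    simp only [zero_add, mem_filter, mem_range, Nat.lt_one_iff, mem_singleton]
    constructor
    · exact fun h => h.1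
    · rintro rfl
      refine ⟨rfl, ?_⟩
      simp only [Nat.choose_self, Nat.dvd_one]
      exact hp.one_lt.ne'
  rw [this, card_singleton]

theorem row_digit {p : ℕ} (hp : p.Prime) (d : ℕ) (hd : d < p) : row p d = d + 1 := by
  have := row_step hp 0 d hd
  rw [row_zero hp] at this
  simpa using this

theorem row_mul {p : ℕ} (hp : p.Prime) (e : ℕ) : ∀ k m : ℕ, m < p ^ k →
    row p (e * p ^ k + m) = row p e * row p m := by
  intro k
  induction k with
  | zero =>
    intro m hm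
    have : m = 0 := by simpa using hm
    subst this
    simp [row_zero hp]
  | succ k ih =>
    intro m hm
    have hpos := hp.pos
    have h1 : m / p < p ^ k := by
      rw [Nat.div_lt_iff_lt_mul hpos]
      rwa [pow_succ] at hm
    have h2 : m % p < p := Nat.mod_lt _ hpos
    have h3 : e * p ^ (k + 1) + m = p * (e * p ^ k + m / p) + m % p := by
      have := Nat.div_add_mod m p
      calc e * p ^ (k + 1) + m = e * p ^ (k + 1) + (p * (m / p) + m % p) := by rw [this]
        _ = _ := by ring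
    have h4 : row p m = (m % p + 1) * row p (m / p) := by
      conv_lhs => rw [← Nat.div_add_mod m p]
      exact row_step hp _ _ h2
    rw [h3, row_step hp _ _ h2, ih _ h1, h4]
    ring

/-! ### The counting function -/

theorem f_add {p : ℕ} (hp : p.Prime) (e k m : ℕ) (hm : m ≤ p ^ k) :
    f p (e * p ^ k + m) = f p (e * p ^ k) + row p e * f p m := by
  rw [f_eq, f_eq, f_eq, sum_range_add, mul_sum]
  congr 1
  refine sum_congr rfl fun t ht => ?_
  rw [mem_range] at ht
  exact row_mul hp e k t (by omega)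

theorem f_zero (p : ℕ) : f p 0 = 0 := by simp [f_eq]

theorem f_succ (p n : ℕ) : f p (n + 1) = f p n + row p n := by
  rw [f_eq, f_eq, sum_range_succ]

theorem f_mul_pow {p : ℕ} (hp : p.Prime) (k e : ℕ) : f p (e * p ^ k) = f p e * f p (p ^ k) := by
  induction e with
  | zero => simp [f_zero]
  | succ e ih =>
    have : (e + 1) * p ^ k = e * p ^ k + p ^ k := by ring
    rw [this, f_add hp e k _ le_rfl, ih, f_succ]
    ring

theorem f_digit {p : ℕ} (hp : p.Prime) (d : ℕ) (hd : d ≤ p) : 2 * f p d = d * (d + 1) := by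
  induction d with
  | zero => simp [f_zero]
  | succ d ih =>
    rw [f_succ, mul_add, ih (by omega), row_digit hp d (by omega)]
    ring

theorem f_pow {p : ℕ} (hp : p.Prime) (k : ℕ) : f p (p ^ k) = (f p p) ^ k := by
  induction k with
  | zero =>
    have := f_digit hp 1 hp.one_lt.le
    simp only [pow_zero]
    omega
  | succ k ih =>
    rw [pow_succ', f_mul_pow hp, ih, pow_succ']

theorem f_main {p : ℕ} (hp : p.Prime) (e k m : ℕ) (hm : m ≤ p ^ k) :
    f p (e * p ^ k + m) = f p e * (f p p) ^ k + row p e * f p m := by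
  rw [f_add hp e k m hm, f_mul_pow hp, f_pow hp]

/-! ### Piecewise linear lower bounds -/

/-- The piecewise linear function with the value `l i / D` at `i / q`. -/
noncomputable def L (q : ℕ) (D : ℤ) (l : ℕ → ℤ) (y : ℝ) : ℝ :=
  ((l ⌊(q : ℝ) * y⌋₊ : ℝ) + ((l (⌊(q : ℝ) * y⌋₊ + 1) : ℝ) - (l ⌊(q : ℝ) * y⌋₊ : ℝ)) *
    ((q : ℝ) * y - (⌊(q : ℝ) * y⌋₊ : ℝ))) / (D : ℝ)

/-- One inequality of the check (with `s = 0` or `s = 1`). -/
def Ineq (p q : ℕ) (D : ℤ) (l : ℕ → ℤ) (d j s : ℕ) : Prop :=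
  ((p * (p + 1) / 2 : ℕ) : ℤ) * ((p : ℤ) * l ((q * d + j) / p) +
    (l ((q * d + j) / p + 1) - l ((q * d + j) / p)) * (((q * d + j) % p + s : ℕ) : ℤ)) ≤
  (p : ℤ) * (D * ((d * (d + 1) / 2 : ℕ) : ℤ) + ((d : ℤ) + 1) * l (j + s))

instance (p q : ℕ) (D : ℤ) (l : ℕ → ℤ) (d j s : ℕ) : Decidable (Ineq p q D l d j s) := by
  unfold Ineq
  infer_instance

/-- The finite check for a lower bound. -/
def Check (p q : ℕ) (D : ℤ) (l : ℕ → ℤ) : Prop :=
  l 0 ≤ 0 ∧ l q ≤ D ∧ (∀ d < p, ∀ j < q, Ineq p q D l d j 0 ∧ Ineq p q D l d j 1) ∧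
    (∀ d < p, Ineq p q D l d q 0)

instance (p q : ℕ) (D : ℤ) (l : ℕ → ℤ) : Decidable (Check p q D l) := by
  unfold Check
  infer_instance

theorem two_f_p {p : ℕ} (hp : p.Prime) : f p p = p * (p + 1) / 2 := by
  have := f_digit hp p le_rfl
  omega

theorem two_f_d {p : ℕ} (hp : p.Prime) (d : ℕ) (hd : d ≤ p) : f p d = d * (d + 1) / 2 := by
  have := f_digit hp d hd
  omega

theorem L_le {p q : ℕ} {D : ℤ} {l : ℕ → ℤ} (hp : p.Prime) (hq : 0 < q) (hD : 0 < D)
    (hc : Check p q D l) : ∀ k m : ℕ, m ≤ p ^ k →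
      L q D l ((m : ℝ) / (p : ℝ) ^ k) ≤ (f p m : ℝ) / (f p p : ℝ) ^ k := by
  have hpos : (0 : ℝ) < p := by exact_mod_cast hp.pos
  have hDr : (0 : ℝ) < D := by exact_mod_cast hD
  have hqr : (0 : ℝ) < q := by exact_mod_cast hq
  have ha : (0 : ℝ) < f p p := by
    have h1 := f_digit hp p le_rfl
    have h2 : 0 < p * (p + 1) := Nat.mul_pos hp.pos (by omega)
    have : 0 < f p p := by omega
    exact_mod_cast this
  intro k
  induction k with
  | zero =>
    intro m hm
    have hm1 : m = 0 ∨ m = 1 := by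
      simp only [pow_zero] at hm
      omega
    rcases hm1 with rfl | rfl
    · simp only [L, Nat.cast_zero, pow_zero, zero_div, mul_zero, Nat.floor_zero, f_zero, sub_zero,
        add_zero]
      exact div_nonpos_of_nonpos_of_nonneg (by exact_mod_cast hc.1) hDr.le
    · have h1 : f p 1 = 1 := by
        have := f_digit hp 1 hp.one_lt.le
        omega
      simp only [L, Nat.cast_one, pow_zero, div_one, mul_one, Nat.floor_natCast, sub_self, mul_zero,
        add_zero, h1]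
      rw [div_le_one hDr]
      exact_mod_cast hc.2.1
  | succ k ih =>
    intro m' hm'
    have hpk : 0 < p ^ k := pow_pos hp.pos k
    obtain ⟨d, m, hd, hm, rfl⟩ : ∃ d m : ℕ, d < p ∧ m ≤ p ^ k ∧ m' = d * p ^ k + m := by
      rcases Nat.lt_or_ge m' (p ^ (k + 1)) with hlt | hge
      · refine ⟨m' / p ^ k, m' % p ^ k, ?_, (Nat.mod_lt _ hpk).le, ?_⟩
        · rw [Nat.div_lt_iff_lt_mul hpk, ← pow_succ']
          exact hlt
        · rw [mul_comm]
          exact (Nat.div_add_mod _ _).symm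
      · refine ⟨p - 1, p ^ k, by have := hp.pos; omega, le_rfl, ?_⟩
        have h1 : m' = p ^ (k + 1) := le_antisymm hm' hge
        have h2 : p = (p - 1) + 1 := by have := hp.pos; omega
        rw [h1, pow_succ']
        calc p * p ^ k = ((p - 1) + 1) * p ^ k := by rw [← h2]
          _ = _ := by ring
    have hih := ih m hm
    set y : ℝ := (m : ℝ) / (p : ℝ) ^ k with hy
    set φ : ℝ := (f p m : ℝ) / (f p p : ℝ) ^ k with hφ
    have hpkr : (0 : ℝ) < (p : ℝ) ^ k := by positivity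
    have hy0 : 0 ≤ y := by positivity
    have hy1 : y ≤ 1 := by
      rw [hy, div_le_one hpkr]
      exact_mod_cast hm
    -- the argument and the value
    have hy' : ((d * p ^ k + m : ℕ) : ℝ) / (p : ℝ) ^ (k + 1) = ((d : ℝ) + y) / p := by
      rw [hy]
      push_cast
      field_simp
      ring
    have hv : (f p (d * p ^ k + m) : ℝ) / (f p p : ℝ) ^ (k + 1) =
        ((f p d : ℝ) + ((d : ℝ) + 1) * φ) / (f p p : ℝ) := by
      rw [f_main hp d k m hm, row_digit hp d hd, hφ]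
      push_cast
      field_simp
      ring
    rw [hy', hv]
    set j : ℕ := ⌊(q : ℝ) * y⌋₊ with hj
    set s : ℝ := (q : ℝ) * y - j with hs
    have hs0 : 0 ≤ s := by
      have := Nat.floor_le (a := (q : ℝ) * y) (by positivity)
      rw [hs]; linarith
    have hs1 : s < 1 := by
      have := Nat.lt_floor_add_one ((q : ℝ) * y)
      rw [hs]; linarith
    have hjq : j ≤ q := by
      have h1 : (q : ℝ) * y ≤ q := by nlinarith
      have := Nat.floor_le_floor h1
      simpa using this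
    have hLy : L q D l y = ((l j : ℝ) + ((l (j + 1) : ℝ) - (l j : ℝ)) * s) / D := rfl
    rw [hLy] at hih
    -- the floor at the new point
    set u : ℕ := q * d + j with hu
    have hqy : (q : ℝ) * (((d : ℝ) + y) / p) = ((u : ℝ) + s) / p := by
      rw [hu, hs]
      push_cast
      ring
    have hfl : ⌊(q : ℝ) * (((d : ℝ) + y) / p)⌋₊ = u / p := by
      rw [hqy, Nat.floor_div_natCast]
      congr 1
      rw [Nat.floor_eq_iff (by positivity)]
      constructor <;> linarith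
    have hmod : (u : ℝ) = (p : ℝ) * ((u / p : ℕ) : ℝ) + ((u % p : ℕ) : ℝ) := by
      exact_mod_cast (Nat.div_add_mod u p).symm
    have hL' : L q D l (((d : ℝ) + y) / p) = ((l (u / p) : ℝ) +
        ((l (u / p + 1) : ℝ) - (l (u / p) : ℝ)) * ((((u % p : ℕ) : ℝ) + s) / p)) / D := by
      unfold L
      rw [hfl, hqy]
      congr 2
      congr 1
      rw [hmod]
      field_simp
      ring
    rw [hL']
    -- the two inequalities of the check
    have hfd : (f p d : ℝ) = ((d * (d + 1) / 2 : ℕ) : ℝ) := by rw [two_f_d hp d hd.le]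
    have hfp : (f p p : ℝ) = ((p * (p + 1) / 2 : ℕ) : ℝ) := by rw [two_f_p hp]
    have key : (f p p : ℝ) * ((p : ℝ) * (l (u / p) : ℝ) +
        ((l (u / p + 1) : ℝ) - (l (u / p) : ℝ)) * (((u % p : ℕ) : ℝ) + s)) ≤
        (p : ℝ) * ((D : ℝ) * (f p d : ℝ) + ((d : ℝ) + 1) *
          ((l j : ℝ) + ((l (j + 1) : ℝ) - (l j : ℝ)) * s)) := by
      rcases Nat.lt_or_ge j q with hlt | hge
      · obtain ⟨i0, i1⟩ := hc.2.2.1 d hd j hlt
        have c0 : (f p p : ℝ) * ((p : ℝ) * (l (u / p) : ℝ) +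
            ((l (u / p + 1) : ℝ) - (l (u / p) : ℝ)) * (((u % p : ℕ) : ℝ))) ≤
            (p : ℝ) * ((D : ℝ) * (f p d : ℝ) + ((d : ℝ) + 1) * (l j : ℝ)) := by
          rw [hfd, hfp]
          unfold Ineq at i0
          rw [← hu] at i0
          have i0' : ((((p * (p + 1) / 2 : ℕ) : ℤ) * ((p : ℤ) * l (u / p) +
            (l (u / p + 1) - l (u / p)) * ((u % p + 0 : ℕ) : ℤ)) : ℤ) : ℝ) ≤
            (((p : ℤ) * (D * ((d * (d + 1) / 2 : ℕ) : ℤ) + ((d : ℤ) + 1) * l (j + 0)) : ℤ) : ℝ) := by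
            exact_mod_cast i0
          push_cast at i0' ⊢
          simp only [add_zero] at i0'
          exact i0'
        have c1 : (f p p : ℝ) * ((p : ℝ) * (l (u / p) : ℝ) +
            ((l (u / p + 1) : ℝ) - (l (u / p) : ℝ)) * (((u % p : ℕ) : ℝ) + 1)) ≤
            (p : ℝ) * ((D : ℝ) * (f p d : ℝ) + ((d : ℝ) + 1) * (l (j + 1) : ℝ)) := by
          rw [hfd, hfp]
          unfold Ineq at i1
          rw [← hu] at i1
          have i1' : ((((p * (p + 1) / 2 : ℕ) : ℤ) * ((p : ℤ) * l (u / p) +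
            (l (u / p + 1) - l (u / p)) * ((u % p + 1 : ℕ) : ℤ)) : ℤ) : ℝ) ≤
            (((p : ℤ) * (D * ((d * (d + 1) / 2 : ℕ) : ℤ) + ((d : ℤ) + 1) * l (j + 1)) : ℤ) : ℝ) := by
            exact_mod_cast i1
          push_cast at i1' ⊢
          exact i1'
        have e1 := mul_le_mul_of_nonneg_left c0 (show 0 ≤ 1 - s by linarith)
        have e2 := mul_le_mul_of_nonneg_left c1 hs0
        nlinarith [e1, e2]
      · have hjq' : j = q := le_antisymm hjq hge
        have hs' : s = 0 := by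
          have h1 : (q : ℝ) * y ≤ q := by nlinarith
          have : s ≤ 0 := by rw [hs, hjq']; linarith
          linarith
        have i0 := hc.2.2.2 d hd
        rw [hs']
        simp only [add_zero, mul_zero]
        rw [hfd, hfp]
        unfold Ineq at i0
        have hu' : q * d + q = u := by rw [hu, hjq']
        rw [hu'] at i0
        have i0' : ((((p * (p + 1) / 2 : ℕ) : ℤ) * ((p : ℤ) * l (u / p) +
          (l (u / p + 1) - l (u / p)) * ((u % p + 0 : ℕ) : ℤ)) : ℤ) : ℝ) ≤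
          (((p : ℤ) * (D * ((d * (d + 1) / 2 : ℕ) : ℤ) + ((d : ℤ) + 1) * l (q + 0)) : ℤ) : ℝ) := by
          exact_mod_cast i0
        push_cast at i0' ⊢
        simp only [add_zero] at i0'
        rw [hjq']
        exact i0'
    -- conclude
    have hφ' : (l j : ℝ) + ((l (j + 1) : ℝ) - (l j : ℝ)) * s ≤ (D : ℝ) * φ := by
      rw [div_le_iff₀ hDr] at hih
      linarith
    have key2 : (f p p : ℝ) * ((p : ℝ) * (l (u / p) : ℝ) +
        ((l (u / p + 1) : ℝ) - (l (u / p) : ℝ)) * (((u % p : ℕ) : ℝ) + s)) ≤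
        (p : ℝ) * ((D : ℝ) * (f p d : ℝ) + ((d : ℝ) + 1) * ((D : ℝ) * φ)) := by
      refine key.trans ?_
      have : ((d : ℝ) + 1) * ((l j : ℝ) + ((l (j + 1) : ℝ) - (l j : ℝ)) * s) ≤
          ((d : ℝ) + 1) * ((D : ℝ) * φ) := mul_le_mul_of_nonneg_left hφ' (by positivity)
      have h2 := mul_le_mul_of_nonneg_left this hpos.le
      nlinarith [h2]
    rw [div_le_div_iff₀ hDr ha]
    have e3 : ((l (u / p) : ℝ) + ((l (u / p + 1) : ℝ) - (l (u / p) : ℝ)) *
        ((((u % p : ℕ) : ℝ) + s) / p)) * (f p p : ℝ) =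
        ((f p p : ℝ) * ((p : ℝ) * (l (u / p) : ℝ) +
        ((l (u / p + 1) : ℝ) - (l (u / p) : ℝ)) * (((u % p : ℕ) : ℝ) + s))) / p := by
      field_simp
    rw [e3, div_le_iff₀ hpos]
    refine key2.trans (le_of_eq ?_)
    ring

/-! ### The exponent -/

theorem a_pos {p : ℕ} (hp : p.Prime) : (0 : ℝ) < f p p := by
  have h1 := f_digit hp p le_rfl
  have h2 : 0 < p * (p + 1) := Nat.mul_pos hp.pos (by omega)
  have : 0 < f p p := by omega
  exact_mod_cast this

theorem theta_eq {p : ℕ} (hp : p.Prime) : theta p = Real.log (f p p) / Real.log p := by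
  unfold theta
  have h1 : (2 : ℝ) * (f p p : ℝ) = p * (p + 1) := by exact_mod_cast f_digit hp p le_rfl
  rw [← h1]
  congr 2
  ring

theorem log_p_pos {p : ℕ} (hp : p.Prime) : 0 < Real.log p :=
  Real.log_pos (by exact_mod_cast hp.one_lt)

theorem p_pow_theta {p : ℕ} (hp : p.Prime) : (p : ℝ) ^ theta p = f p p := by
  have hpos : (0 : ℝ) < p := by exact_mod_cast hp.pos
  rw [theta_eq hp, Real.rpow_def_of_pos hpos, mul_div_cancel₀ _ (log_p_pos hp).ne',
    Real.exp_log (a_pos hp)]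

theorem pk_pow_theta {p : ℕ} (hp : p.Prime) (k : ℕ) :
    ((p : ℝ) ^ k) ^ theta p = (f p p : ℝ) ^ k := by
  have hpos : (0 : ℝ) ≤ p := by exact_mod_cast hp.pos.le
  rw [← p_pow_theta hp, ← Real.rpow_natCast, ← Real.rpow_natCast, ← Real.rpow_mul hpos,
    ← Real.rpow_mul hpos, mul_comm]

theorem theta_le {p s t : ℕ} (hp : p.Prime) (ht : 0 < t)
    (h : (p * (p + 1) / 2) ^ t ≤ p ^ s) : theta p ≤ (s : ℝ) / t := by
  have htr : (0 : ℝ) < t := by exact_mod_cast ht
  have hpos : (0 : ℝ) < p := by exact_mod_cast hp.pos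
  rw [theta_eq hp, div_le_div_iff₀ (log_p_pos hp) htr]
  rw [← two_f_p hp] at h
  have h2 : (f p p : ℝ) ^ t ≤ (p : ℝ) ^ s := by exact_mod_cast h
  have h3 := Real.log_le_log (pow_pos (a_pos hp) t) h2
  rw [Real.log_pow, Real.log_pow] at h3
  linarith

theorem le_theta {p s t : ℕ} (hp : p.Prime) (ht : 0 < t)
    (h : p ^ s ≤ (p * (p + 1) / 2) ^ t) : (s : ℝ) / t ≤ theta p := by
  have htr : (0 : ℝ) < t := by exact_mod_cast ht
  have hpos : (0 : ℝ) < p := by exact_mod_cast hp.pos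
  rw [theta_eq hp, div_le_div_iff₀ htr (log_p_pos hp)]
  rw [← two_f_p hp] at h
  have h2 : (p : ℝ) ^ s ≤ (f p p : ℝ) ^ t := by exact_mod_cast h
  have h3 := Real.log_le_log (pow_pos hpos s) h2
  rw [Real.log_pow, Real.log_pow] at h3
  linarith

theorem root_pow {z : ℝ} {s t : ℕ} (hz : 0 ≤ z) (ht : 0 < t) : (z ^ ((s : ℝ) / t)) ^ t = z ^ s := by
  have htr : (t : ℝ) ≠ 0 := by exact_mod_cast ht.ne'
  rw [← Real.rpow_natCast (z ^ ((s : ℝ) / t)) t, ← Real.rpow_mul hz, div_mul_cancel₀ _ htr,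
    Real.rpow_natCast]

theorem bound_hi {z w th : ℝ} {s t : ℕ} (hz : 1 ≤ z) (hw : 0 ≤ w) (ht : 0 < t)
    (hth : th ≤ (s : ℝ) / t) (h : z ^ s ≤ w ^ t) : z ^ th ≤ w := by
  have h0 : (0 : ℝ) ≤ z := by linarith
  refine (Real.rpow_le_rpow_of_exponent_le hz hth).trans ?_
  refine le_of_pow_le_pow_left₀ ht.ne' hw ?_
  rw [root_pow h0 ht]
  exact h

theorem bound_lo {z w th : ℝ} {s t : ℕ} (hz0 : 0 < z) (hz : z ≤ 1) (hw : 0 ≤ w) (ht : 0 < t)
    (hth : (s : ℝ) / t ≤ th) (h : z ^ s ≤ w ^ t) : z ^ th ≤ w := by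
  refine (Real.rpow_le_rpow_of_exponent_ge hz0 hz hth).trans ?_
  refine le_of_pow_le_pow_left₀ ht.ne' hw ?_
  rw [root_pow hz0.le ht]
  exact h

/-- The finite check for the comparison with the power function at the break points; the critical
point is `xn / xd`, the critical value `fn / fd`, and `s1 / t1 ≤ θ ≤ s2 / t2`. -/
def Num (p q : ℕ) (D : ℤ) (l : ℕ → ℤ) (xn xd fn fd s1 t1 s2 t2 : ℕ) : Prop :=
  ∀ d < p, ∀ j < q + 1, 1 ≤ d →
    0 ≤ (D * ((d * (d + 1) / 2 : ℕ) : ℤ) + ((d : ℤ) + 1) * l j) * fd ∧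
    ((xn * q ≤ (q * d + j) * xd ∧
      (((q * d + j) * xd : ℕ) : ℤ) ^ s2 * ((fn : ℤ) * D) ^ t2 ≤
        ((D * ((d * (d + 1) / 2 : ℕ) : ℤ) + ((d : ℤ) + 1) * l j) * fd) ^ t2 *
          ((xn * q : ℕ) : ℤ) ^ s2) ∨
     ((q * d + j) * xd ≤ xn * q ∧
      (((q * d + j) * xd : ℕ) : ℤ) ^ s1 * ((fn : ℤ) * D) ^ t1 ≤
        ((D * ((d * (d + 1) / 2 : ℕ) : ℤ) + ((d : ℤ) + 1) * l j) * fd) ^ t1 *
          ((xn * q : ℕ) : ℤ) ^ s1))

instance (p q : ℕ) (D : ℤ) (l : ℕ → ℤ) (xn xd fn fd s1 t1 s2 t2 : ℕ) :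
    Decidable (Num p q D l xn xd fn fd s1 t1 s2 t2) := by
  unfold Num
  infer_instance

theorem num_real {p q : ℕ} {D : ℤ} {l : ℕ → ℤ} {xn xd fn fd s1 t1 s2 t2 : ℕ} (hp : p.Prime)
    (hq : 0 < q) (hD : 0 < D) (hxn : 0 < xn) (hxd : 0 < xd) (hfn : 0 < fn) (hfd : 0 < fd)
    (ht1 : 0 < t1) (ht2 : 0 < t2) (h1 : (s1 : ℝ) / t1 ≤ theta p) (h2 : theta p ≤ (s2 : ℝ) / t2)
    (hN : Num p q D l xn xd fn fd s1 t1 s2 t2) (d j : ℕ) (hd : d < p) (hd1 : 1 ≤ d) (hj : j ≤ q) :
    ((fn : ℝ) / fd) * ((xn : ℝ) / xd) ^ (-theta p) * ((d : ℝ) + (j : ℝ) / q) ^ theta p ≤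
      (f p d : ℝ) + ((d : ℝ) + 1) * ((l j : ℝ) / D) := by
  have hqr : (0 : ℝ) < q := by exact_mod_cast hq
  have hDr : (0 : ℝ) < D := by exact_mod_cast hD
  have hxnr : (0 : ℝ) < xn := by exact_mod_cast hxn
  have hxdr : (0 : ℝ) < xd := by exact_mod_cast hxd
  have hfnr : (0 : ℝ) < fn := by exact_mod_cast hfn
  have hfdr : (0 : ℝ) < fd := by exact_mod_cast hfd
  have hdr : (0 : ℝ) < d := by exact_mod_cast hd1
  obtain ⟨hV, hcase⟩ := hN d hd j (by omega) hd1
  have hfd' : (f p d : ℝ) = ((d * (d + 1) / 2 : ℕ) : ℝ) := by rw [two_f_d hp d hd.le]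
  set Vi : ℤ := (D * ((d * (d + 1) / 2 : ℕ) : ℤ) + ((d : ℤ) + 1) * l j) * fd with hVi
  have hVr : (Vi : ℝ) = ((D : ℝ) * (f p d : ℝ) + ((d : ℝ) + 1) * (l j : ℝ)) * fd := by
    rw [hVi, hfd']
    push_cast
    rfl
  have hV0 : (0 : ℝ) ≤ Vi := by exact_mod_cast hV
  set z : ℝ := (((q * d + j) * xd : ℕ) : ℝ) / ((xn * q : ℕ) : ℝ) with hz
  set w : ℝ := (Vi : ℝ) / ((fn : ℝ) * D) with hw
  have hXpos : (0 : ℝ) < (((q * d + j) * xd : ℕ) : ℝ) := by
    have : 0 < (q * d + j) * xd := Nat.mul_pos (by have := Nat.mul_pos hq hd1; omega) hxd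
    exact_mod_cast this
  have hYpos : (0 : ℝ) < ((xn * q : ℕ) : ℝ) := by
    have := Nat.mul_pos hxn hq
    exact_mod_cast this
  have hWpos : (0 : ℝ) < (fn : ℝ) * D := by positivity
  have hz0 : 0 < z := div_pos hXpos hYpos
  have hw0 : 0 ≤ w := div_nonneg hV0 hWpos.le
  have hzw : z ^ theta p ≤ w := by
    rcases hcase with ⟨hc1, hc2⟩ | ⟨hc1, hc2⟩
    · refine bound_hi (s := s2) (t := t2) ?_ hw0 ht2 h2 ?_
      · rw [hz, one_le_div hYpos]
        exact_mod_cast hc1
      · rw [hz, hw, div_pow, div_pow, div_le_div_iff₀ (pow_pos hYpos _) (pow_pos hWpos _)]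
        exact_mod_cast hc2
    · refine bound_lo (s := s1) (t := t1) hz0 ?_ hw0 ht1 h1 ?_
      · rw [hz, div_le_one hYpos]
        exact_mod_cast hc1
      · rw [hz, hw, div_pow, div_pow, div_le_div_iff₀ (pow_pos hYpos _) (pow_pos hWpos _)]
        exact_mod_cast hc2
  have hx0 : (0 : ℝ) < (xn : ℝ) / xd := by positivity
  have hzx : z = ((d : ℝ) + (j : ℝ) / q) / ((xn : ℝ) / xd) := by
    rw [hz]
    push_cast
    field_simp
  have hfac : ((fn : ℝ) / fd) * ((xn : ℝ) / xd) ^ (-theta p) * ((d : ℝ) + (j : ℝ) / q) ^ theta p =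
      ((fn : ℝ) / fd) * z ^ theta p := by
    rw [hzx, Real.div_rpow (by positivity) hx0.le, Real.rpow_neg hx0.le]
    field_simp
  rw [hfac]
  calc ((fn : ℝ) / fd) * z ^ theta p ≤ ((fn : ℝ) / fd) * w :=
        mul_le_mul_of_nonneg_left hzw (by positivity)
    _ = (f p d : ℝ) + ((d : ℝ) + 1) * ((l j : ℝ) / D) := by
        rw [hw, hVr]
        field_simp

/-! ### The lower bound for all `n` -/

theorem lower {p q : ℕ} {D : ℤ} {l : ℕ → ℤ} {xn xd fn fd s1 t1 s2 t2 : ℕ} (hp : p.Prime)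
    (hq : 0 < q) (hD : 0 < D) (hxn : 0 < xn) (hxd : 0 < xd) (hfn : 0 < fn) (hfd : 0 < fd)
    (ht1 : 0 < t1) (ht2 : 0 < t2) (h11 : 1 ≤ theta p) (h1 : (s1 : ℝ) / t1 ≤ theta p)
    (h2 : theta p ≤ (s2 : ℝ) / t2) (hc : Check p q D l)
    (hN : Num p q D l xn xd fn fd s1 t1 s2 t2) (n : ℕ) (hn : 1 ≤ n) :
    ((fn : ℝ) / fd) * ((xn : ℝ) / xd) ^ (-theta p) * (n : ℝ) ^ theta p ≤ f p n := by
  have hpos := hp.pos
  have hposr : (0 : ℝ) < p := by exact_mod_cast hpos
  have hqr : (0 : ℝ) < q := by exact_mod_cast hq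
  have hDr : (0 : ℝ) < D := by exact_mod_cast hD
  have ha := a_pos hp
  set k : ℕ := Nat.log p n with hk
  have hk1 : p ^ k ≤ n := Nat.pow_log_le_self p (by omega)
  have hk2 : n < p ^ (k + 1) := Nat.lt_pow_succ_log_self hp.one_lt n
  have hpk : 0 < p ^ k := pow_pos hpos k
  have hpkr : (0 : ℝ) < (p : ℝ) ^ k := by positivity
  set d : ℕ := n / p ^ k with hd
  set m : ℕ := n % p ^ k with hm
  have hd1 : 1 ≤ d := (Nat.one_le_div_iff hpk).2 hk1
  have hdp : d < p := by
    rw [hd, Nat.div_lt_iff_lt_mul hpk, ← pow_succ']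
    exact hk2
  have hmlt : m < p ^ k := Nat.mod_lt _ hpk
  have hnm : n = d * p ^ k + m := by
    rw [mul_comm]
    exact (Nat.div_add_mod n (p ^ k)).symm
  set y : ℝ := (m : ℝ) / (p : ℝ) ^ k with hy
  have hy0 : 0 ≤ y := by positivity
  have hy1 : y < 1 := by
    rw [hy, div_lt_one hpkr]
    exact_mod_cast hmlt
  have hL := L_le hp hq hD hc k m hmlt.le
  rw [← hy] at hL
  set j : ℕ := ⌊(q : ℝ) * y⌋₊ with hj
  set s : ℝ := (q : ℝ) * y - j with hs
  have hs0 : 0 ≤ s := by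
    have := Nat.floor_le (a := (q : ℝ) * y) (by positivity)
    rw [hs]; linarith
  have hs1 : s < 1 := by
    have := Nat.lt_floor_add_one ((q : ℝ) * y)
    rw [hs]; linarith
  have hjq : j < q := by
    rw [hj, Nat.floor_lt (by positivity)]
    nlinarith
  have hLy : L q D l y = ((l j : ℝ) + ((l (j + 1) : ℝ) - (l j : ℝ)) * s) / D := rfl
  rw [hLy] at hL
  have n0 := num_real hp hq hD hxn hxd hfn hfd ht1 ht2 h1 h2 hN d j hdp hd1 hjq.le
  have n1 := num_real hp hq hD hxn hxd hfn hfd ht1 ht2 h1 h2 hN d (j + 1) hdp hd1 hjq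
  set lam0 : ℝ := ((fn : ℝ) / fd) * ((xn : ℝ) / xd) ^ (-theta p) with hlam0
  have hlam : 0 ≤ lam0 := by positivity
  -- convexity
  have hcv := (convexOn_rpow h11).2
    (show (d : ℝ) + (j : ℝ) / q ∈ Set.Ici 0 from Set.mem_Ici.2 (by positivity))
    (show (d : ℝ) + ((j + 1 : ℕ) : ℝ) / q ∈ Set.Ici 0 from Set.mem_Ici.2 (by positivity))
    (show 0 ≤ 1 - s by linarith) hs0 (by ring)
  simp only [smul_eq_mul] at hcv
  have hpt : (1 - s) * ((d : ℝ) + (j : ℝ) / q) + s * ((d : ℝ) + ((j + 1 : ℕ) : ℝ) / q) = (d : ℝ) + y := by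
    rw [hs]
    push_cast
    field_simp
    ring
  rw [hpt] at hcv
  have hmain : lam0 * ((d : ℝ) + y) ^ theta p ≤
      (f p d : ℝ) + ((d : ℝ) + 1) * ((f p m : ℝ) / (f p p : ℝ) ^ k) := by
    have e1 := mul_le_mul_of_nonneg_left hcv hlam
    have e2 := mul_le_mul_of_nonneg_left n0 (show 0 ≤ 1 - s by linarith)
    have e3 := mul_le_mul_of_nonneg_left n1 hs0
    have e4 := mul_le_mul_of_nonneg_left hL (show (0 : ℝ) ≤ (d : ℝ) + 1 by positivity)
    have e5 : (1 - s) * ((f p d : ℝ) + ((d : ℝ) + 1) * ((l j : ℝ) / D)) +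
        s * ((f p d : ℝ) + ((d : ℝ) + 1) * ((l (j + 1) : ℝ) / D)) =
        (f p d : ℝ) + ((d : ℝ) + 1) * (((l j : ℝ) + ((l (j + 1) : ℝ) - (l j : ℝ)) * s) / D) := by
      field_simp
      ring
    calc lam0 * ((d : ℝ) + y) ^ theta p ≤ lam0 * ((1 - s) * ((d : ℝ) + (j : ℝ) / q) ^ theta p +
          s * ((d : ℝ) + ((j + 1 : ℕ) : ℝ) / q) ^ theta p) := e1
      _ = (1 - s) * (lam0 * ((d : ℝ) + (j : ℝ) / q) ^ theta p) +
          s * (lam0 * ((d : ℝ) + ((j + 1 : ℕ) : ℝ) / q) ^ theta p) := by ring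
      _ ≤ (1 - s) * ((f p d : ℝ) + ((d : ℝ) + 1) * ((l j : ℝ) / D)) +
          s * ((f p d : ℝ) + ((d : ℝ) + 1) * ((l (j + 1) : ℝ) / D)) := add_le_add e2 e3
      _ = _ := e5
      _ ≤ _ := by linarith
  have hnr : (n : ℝ) = (p : ℝ) ^ k * ((d : ℝ) + y) := by
    rw [hy, hnm]
    push_cast
    field_simp
  have hn_pow : (n : ℝ) ^ theta p = (f p p : ℝ) ^ k * ((d : ℝ) + y) ^ theta p := by
    rw [hnr, Real.mul_rpow hpkr.le (by positivity), pk_pow_theta hp]
  have hfn' : (f p n : ℝ) = (f p p : ℝ) ^ k *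
      ((f p d : ℝ) + ((d : ℝ) + 1) * ((f p m : ℝ) / (f p p : ℝ) ^ k)) := by
    rw [hnm, f_main hp d k m hmlt.le, row_digit hp d hdp]
    push_cast
    field_simp
  rw [hn_pow, hfn']
  calc lam0 * ((f p p : ℝ) ^ k * ((d : ℝ) + y) ^ theta p)
      = (f p p : ℝ) ^ k * (lam0 * ((d : ℝ) + y) ^ theta p) := by ring
    _ ≤ _ := mul_le_mul_of_nonneg_left hmain (by positivity)

/-! ### Numbers that approach the critical point -/

/-- `c m i = ((2 m + 1) ^ i - 1) / 2`, the number with `i` digits `m` in base `2 m + 1`. -/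
def c (m : ℕ) : ℕ → ℕ
  | 0 => 0
  | i + 1 => m * (2 * m + 1) ^ i + c m i

theorem two_c (m i : ℕ) : 2 * c m i + 1 = (2 * m + 1) ^ i := by
  induction i with
  | zero => simp [c]
  | succ i ih =>
    rw [c, pow_succ]
    have : 2 * (m * (2 * m + 1) ^ i + c m i) + 1 = 2 * m * (2 * m + 1) ^ i + (2 * c m i + 1) := by
      ring
    rw [this, ih]
    ring

theorem c_le (m i : ℕ) : c m i ≤ (2 * m + 1) ^ i := by
  have := two_c m i
  omega

theorem f_c {p m : ℕ} (hp : p.Prime) (hm : p = 2 * m + 1) (i : ℕ) :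
    4 * f p (c m i) + (m + 1) ^ i = (f p p) ^ i := by
  induction i with
  | zero => simp [c, f_zero]
  | succ i ih =>
    have h1 : c m i ≤ p ^ i := by rw [hm]; exact c_le m i
    have h2 : c m (i + 1) = m * p ^ i + c m i := by rw [c, hm]
    have h3 := f_digit hp m (by omega)
    have h4 : f p p = (m + 1) * (2 * m + 1) := by
      have := f_digit hp p le_rfl
      rw [hm] at this ⊢
      have e : (2 * m + 1) * (2 * m + 1 + 1) = 2 * ((m + 1) * (2 * m + 1)) := by ring
      omega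
    rw [h2, f_main hp m i _ h1, row_digit hp m (by omega)]
    have h5 : 4 * (f p m * f p p ^ i + (m + 1) * f p (c m i)) + (m + 1) ^ (i + 1) =
        2 * (2 * f p m) * f p p ^ i + (m + 1) * (4 * f p (c m i) + (m + 1) ^ i) := by ring
    rw [h5, ih, h3, pow_succ, h4]
    ring

theorem tendsto_val {p m : ℕ} (hp : p.Prime) (hm : p = 2 * m + 1) (e : ℕ) :
    Tendsto (fun i : ℕ => (f p (e * p ^ i + c m i) : ℝ) / (f p p : ℝ) ^ i) atTop
      (nhds ((f p e : ℝ) + (row p e : ℝ) / 4)) := by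
  have ha := a_pos hp
  have h4 : (f p p : ℝ) = ((m : ℝ) + 1) * p := by
    have h := f_digit hp p le_rfl
    have : f p p = (m + 1) * p := by
      rw [hm] at h ⊢
      have e : (2 * m + 1) * (2 * m + 1 + 1) = 2 * ((m + 1) * (2 * m + 1)) := by ring
      omega
    exact_mod_cast this
  have hp1 : (1 : ℝ) < p := by exact_mod_cast hp.one_lt
  have hm1 : (0 : ℝ) < (m : ℝ) + 1 := by positivity
  have h0 : Tendsto (fun i : ℕ => (((m : ℝ) + 1) / (f p p : ℝ)) ^ i) atTop (nhds 0) := by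
    refine tendsto_pow_atTop_nhds_zero_of_lt_one (by positivity) ?_
    rw [div_lt_one ha, h4]
    nlinarith
  have h1 : Tendsto (fun i : ℕ => (f p e : ℝ) + (row p e : ℝ) *
      ((1 - (((m : ℝ) + 1) / (f p p : ℝ)) ^ i) / 4)) atTop
      (nhds ((f p e : ℝ) + (row p e : ℝ) * ((1 - 0) / 4))) :=
    ((((tendsto_const_nhds.sub h0).div_const 4).const_mul _).const_add _)
  have h2 : (f p e : ℝ) + (row p e : ℝ) * ((1 - 0) / 4) = (f p e : ℝ) + (row p e : ℝ) / 4 := by ring
  rw [h2] at h1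
  refine h1.congr fun i => ?_
  have h3 : c m i ≤ p ^ i := by rw [hm]; exact c_le m i
  have h5 : (4 : ℝ) * (f p (c m i) : ℝ) + ((m : ℝ) + 1) ^ i = (f p p : ℝ) ^ i := by
    exact_mod_cast f_c hp hm i
  have h6 : (f p (c m i) : ℝ) = ((f p p : ℝ) ^ i - ((m : ℝ) + 1) ^ i) / 4 := by linarith
  rw [f_main hp e i _ h3]
  push_cast
  rw [h6, div_pow]
  field_simp

theorem tendsto_arg {p m : ℕ} (hp : p.Prime) (hm : p = 2 * m + 1) (e : ℕ) :
    Tendsto (fun i : ℕ => ((e * p ^ i + c m i : ℕ) : ℝ) / (p : ℝ) ^ i) atTop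
      (nhds ((e : ℝ) + 1 / 2)) := by
  have hp1 : (1 : ℝ) < p := by exact_mod_cast hp.one_lt
  have hp0 : (0 : ℝ) < p := by linarith
  have h0 : Tendsto (fun i : ℕ => ((1 : ℝ) / (p : ℝ)) ^ i) atTop (nhds 0) := by
    refine tendsto_pow_atTop_nhds_zero_of_lt_one (by positivity) ?_
    rw [div_lt_one hp0]
    exact hp1
  have h1 : Tendsto (fun i : ℕ => (e : ℝ) + (1 - ((1 : ℝ) / (p : ℝ)) ^ i) / 2) atTop
      (nhds ((e : ℝ) + (1 - 0) / 2)) :=
    ((tendsto_const_nhds.sub h0).div_const 2).const_add _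
  rw [sub_zero] at h1
  refine h1.congr fun i => ?_
  have h5 : (2 : ℝ) * (c m i : ℝ) + 1 = (p : ℝ) ^ i := by
    rw [hm]
    exact_mod_cast two_c m i
  have h6 : (c m i : ℝ) = ((p : ℝ) ^ i - 1) / 2 := by linarith
  push_cast
  rw [h6, div_pow, one_pow]
  field_simp

theorem tendsto_ratio {p m : ℕ} (hp : p.Prime) (hm : p = 2 * m + 1) (e : ℕ) :
    Tendsto (fun i : ℕ => (f p (e * p ^ i + c m i) : ℝ) *
      ((e * p ^ i + c m i : ℕ) : ℝ) ^ (-theta p)) atTop
      (nhds (((f p e : ℝ) + (row p e : ℝ) / 4) * ((e : ℝ) + 1 / 2) ^ (-theta p))) := by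
  have ha := a_pos hp
  have hp0 : (0 : ℝ) < p := by exact_mod_cast hp.pos
  have h1 := tendsto_val hp hm e
  have h2 := (tendsto_arg hp hm e).rpow_const (p := -theta p) (Or.inl (by positivity))
  refine (h1.mul h2).congr fun i => ?_
  have hpi : (0 : ℝ) < (p : ℝ) ^ i := by positivity
  rw [Real.div_rpow (by positivity) hpi.le, Real.rpow_neg hpi.le, pk_pow_theta hp i]
  field_simp

theorem lam_eq {p m e : ℕ} {v : ℝ} (hp : p.Prime) (hm : p = 2 * m + 1) (he : 1 ≤ e)
    (hv : ((f p e : ℝ) + (row p e : ℝ) / 4) * ((e : ℝ) + 1 / 2) ^ (-theta p) = v)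
    (hl : ∀ n : ℕ, 1 ≤ n → v * (n : ℝ) ^ theta p ≤ f p n) : lam p = v := by
  have hp0 : (0 : ℝ) < p := by exact_mod_cast hp.pos
  have hlow : ∀ n : ℕ, 1 ≤ n → v ≤ (f p n : ℝ) * (n : ℝ) ^ (-theta p) := by
    intro n hn
    have hn0 : (0 : ℝ) < n := by exact_mod_cast hn
    have h1 := hl n hn
    have h2 : 0 < (n : ℝ) ^ theta p := Real.rpow_pos_of_pos hn0 _
    rw [Real.rpow_neg hn0.le, ← div_eq_mul_inv, le_div_iff₀ h2]
    exact h1
  have hlow' : ∀ᶠ n : ℕ in atTop, v ≤ (f p n : ℝ) * (n : ℝ) ^ (-theta p) := by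
    filter_upwards [eventually_ge_atTop 1] with n hn using hlow n hn
  have hten := tendsto_ratio hp hm e
  rw [hv] at hten
  have hinf : Tendsto (fun i : ℕ => e * p ^ i + c m i) atTop atTop := by
    refine tendsto_atTop_mono (f := fun i => i) (fun i => ?_) tendsto_id
    have h1 : i < p ^ i := Nat.lt_pow_self hp.one_lt
    have h2 : p ^ i ≤ e * p ^ i := Nat.le_mul_of_pos_left _ he
    omega
  have hfreq : ∀ ε : ℝ, 0 < ε → ∃ᶠ n : ℕ in atTop, (f p n : ℝ) * (n : ℝ) ^ (-theta p) ≤ v + ε := by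
    intro ε hε
    have h1 : ∀ᶠ i : ℕ in atTop, (f p (e * p ^ i + c m i) : ℝ) *
        ((e * p ^ i + c m i : ℕ) : ℝ) ^ (-theta p) ≤ v + ε :=
      (hten.eventually (gt_mem_nhds (show v < v + ε by linarith))).mono fun i hi => hi.le
    exact hinf.frequently h1.frequently
  have hbdd : atTop.IsBoundedUnder (· ≥ ·) (fun n : ℕ => (f p n : ℝ) * (n : ℝ) ^ (-theta p)) :=
    ⟨v, by simpa using hlow'⟩
  have hcob : atTop.IsCoboundedUnder (· ≥ ·) (fun n : ℕ => (f p n : ℝ) * (n : ℝ) ^ (-theta p)) :=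
    Filter.IsCobounded.of_frequently_le (l := v + 1) (by
      rw [Filter.frequently_map]
      exact hfreq 1 one_pos)
  refine le_antisymm ?_ ?_
  · refine le_of_forall_pos_le_add fun ε hε => ?_
    exact Filter.liminf_le_of_frequently_le (hfreq ε hε) hbdd
  · exact Filter.le_liminf_of_le hcob hlow'

/-! ### The three primes -/

/-- The break point values for `p = 5` (step `1 / 10`, denominator `10 ^ 6`). -/
def l5 (i : ℕ) : ℤ :=
  ([-2838, 12831, 51599, 98607, 174278, 250000, 358296, 466643, 611105, 733314, 955539] :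
    List ℤ).getD i 0

/-- The break point values for `p = 7` (step `1 / 28`, denominator `10 ^ 6`). -/
def l7 (i : ℕ) : ℤ :=
  ([-225, 1641, 8917, 18405, 33248, 39945, 52306, 73473, 101844, 112361, 133548, 162652, 206797,
    220860, 250000, 287924, 347312, 365389, 401769, 449208, 523422, 548429, 585511, 649012, 734125,
    761549, 812481, 878895, 982796] : List ℤ).getD i 0

/-- The break point values for `p = 11` (step `1 / 22`, denominator `880000`). -/
def l11 (i : ℕ) : ℤ :=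
  ([-829, 2577, 11867, 18277, 37259, 48076, 75347, 91344, 119847, 150000, 183932, 220000, 260835,
    301767, 358027, 398212, 462508, 505132, 585323, 627926, 717026, 764053, 862063] :
    List ℤ).getD i 0

theorem check5 : Check 5 10 1000000 l5 := by decide +kernel

theorem check7 : Check 7 28 1000000 l7 := by decide +kernel

theorem check11 : Check 11 22 880000 l11 := by decide +kernel

theorem num5 : Num 5 10 1000000 l5 3 2 3 2 5 3 7 4 := by decide +kernel

theorem num7 : Num 7 28 1000000 l7 3 2 3 2 17 10 7 4 := by decide +kernel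

theorem num11 : Num 11 22 880000 l11 31 22 59 44 5 3 7 4 := by decide +kernel

theorem lam_five : lam 5 = (3 / 2 : ℝ) ^ (1 - theta 5) := by
  have hp : Nat.Prime 5 := by norm_num
  have h1 : ((5 : ℕ) : ℝ) / (3 : ℕ) ≤ theta 5 := le_theta hp (by norm_num) (by norm_num)
  have h2 : theta 5 ≤ ((7 : ℕ) : ℝ) / (4 : ℕ) := theta_le hp (by norm_num) (by norm_num)
  have h3 : (1 : ℝ) ≤ theta 5 := by
    refine le_trans ?_ h1
    norm_num
  have hv : ((3 : ℕ) : ℝ) / (2 : ℕ) * (((3 : ℕ) : ℝ) / (2 : ℕ)) ^ (-theta 5) =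
      (3 / 2 : ℝ) ^ (1 - theta 5) := by
    push_cast
    rw [sub_eq_add_neg, Real.rpow_add (by norm_num), Real.rpow_one]
  refine lam_eq (m := 2) (e := 1) hp (by norm_num) le_rfl ?_ ?_
  · rw [← hv]
    have e1 : f 5 1 = 1 := by
      have := f_digit hp 1 (by norm_num)
      omega
    rw [e1, row_digit hp 1 (by norm_num)]
    push_cast
    norm_num
  · intro n hn
    rw [← hv]
    exact lower hp (by norm_num) (by norm_num) (by norm_num) (by norm_num) (by norm_num)
      (by norm_num) (by norm_num) (by norm_num) h3 h1 h2 check5 num5 n hn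

theorem lam_seven : lam 7 = (3 / 2 : ℝ) ^ (1 - theta 7) := by
  have hp : Nat.Prime 7 := by norm_num
  have h1 : ((17 : ℕ) : ℝ) / (10 : ℕ) ≤ theta 7 := le_theta hp (by norm_num) (by norm_num)
  have h2 : theta 7 ≤ ((7 : ℕ) : ℝ) / (4 : ℕ) := theta_le hp (by norm_num) (by norm_num)
  have h3 : (1 : ℝ) ≤ theta 7 := by
    refine le_trans ?_ h1
    norm_num
  have hv : ((3 : ℕ) : ℝ) / (2 : ℕ) * (((3 : ℕ) : ℝ) / (2 : ℕ)) ^ (-theta 7) =
      (3 / 2 : ℝ) ^ (1 - theta 7) := by
    push_cast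
    rw [sub_eq_add_neg, Real.rpow_add (by norm_num), Real.rpow_one]
  refine lam_eq (m := 3) (e := 1) hp (by norm_num) le_rfl ?_ ?_
  · rw [← hv]
    have e1 : f 7 1 = 1 := by
      have := f_digit hp 1 (by norm_num)
      omega
    rw [e1, row_digit hp 1 (by norm_num)]
    push_cast
    norm_num
  · intro n hn
    rw [← hv]
    exact lower hp (by norm_num) (by norm_num) (by norm_num) (by norm_num) (by norm_num)
      (by norm_num) (by norm_num) (by norm_num) h3 h1 h2 check7 num7 n hn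

theorem lam_eleven : lam 11 = (59 / 44 : ℝ) * (22 / 31 : ℝ) ^ theta 11 := by
  have hp : Nat.Prime 11 := by norm_num
  have h1 : ((5 : ℕ) : ℝ) / (3 : ℕ) ≤ theta 11 := le_theta hp (by norm_num) (by norm_num)
  have h2 : theta 11 ≤ ((7 : ℕ) : ℝ) / (4 : ℕ) := theta_le hp (by norm_num) (by norm_num)
  have h3 : (1 : ℝ) ≤ theta 11 := by
    refine le_trans ?_ h1
    norm_num
  have hv : ((59 : ℕ) : ℝ) / (44 : ℕ) * (((31 : ℕ) : ℝ) / (22 : ℕ)) ^ (-theta 11) =
      (59 / 44 : ℝ) * (22 / 31 : ℝ) ^ theta 11 := by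
    push_cast
    rw [Real.rpow_neg (by norm_num), ← Real.inv_rpow (by norm_num)]
    norm_num
  refine lam_eq (m := 5) (e := 15) hp (by norm_num) (by norm_num) ?_ ?_
  · rw [← hv]
    have e1 : f 11 1 = 1 := by
      have := f_digit hp 1 (by norm_num)
      omega
    have e4 : f 11 4 = 10 := by
      have := f_digit hp 4 (by norm_num)
      omega
    have e11 : f 11 11 = 66 := by
      have := f_digit hp 11 (by norm_num)
      omega
    have r1 : row 11 1 = 2 := row_digit hp 1 (by norm_num)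
    have f15 : f 11 15 = 86 := by
      have := f_main hp 1 1 4 (by norm_num)
      norm_num at this
      rw [this, e1, e4, e11, r1]
    have r15 : row 11 15 = 10 := by
      have := row_step hp 1 4 (by norm_num)
      norm_num at this
      rw [this, r1]
    have h11 : (11 : ℝ) ^ (-theta 11) = 66⁻¹ := by
      have h := p_pow_theta hp
      rw [e11] at h
      push_cast at h
      rw [Real.rpow_neg (by norm_num), h]
    rw [f15, r15]
    push_cast
    have e5 : (15 : ℝ) + 1 / 2 = 11 * (31 / 22) := by norm_num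
    rw [e5, Real.mul_rpow (by norm_num) (by norm_num), h11]
    ring
  · intro n hn
    rw [← hv]
    exact lower hp (by norm_num) (by norm_num) (by norm_num) (by norm_num) (by norm_num)
      (by norm_num) (by norm_num) (by norm_num) h3 h1 h2 check11 num11 n hn

/-- The three equalities for the lower asymptotic constants `λ_5`, `λ_7`, `λ_11`. -/
theorem result : lam 5 = (3 / 2 : ℝ) ^ (1 - theta 5) ∧ lam 7 = (3 / 2 : ℝ) ^ (1 - theta 7) ∧
    lam 11 = (59 / 44 : ℝ) * (22 / 31 : ℝ) ^ theta 11 :=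
  ⟨lam_five, lam_seven, lam_eleven⟩

end Pool.Agent.Results.MP_165cab_nt.LowerConstants
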